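import Mathlib
import Pool.Agent.H.MP_c850b7_lc.Main

set_option autoImplicit false

open FirstOrder FirstOrder.Language

namespace Pool.Agent.Results.MP_74a3dd_lc.Counter

open Pool.Agent.H.MP_c850b7_lc

theorem result : ∃ (L : FirstOrder.Language.{0, 0}) (_ : L.IsAlgebraic) (A B : Type)
    (_ : L.Structure A) (_ : L.Structure B), Nonempty A ∧ Nonempty B ∧
    Structure.FG L A ∧ Isotypic L A B ∧ ¬ Structure.FG L B :=
  ⟨LL, inferInstance, H 0, P, inferInstance, inferInstance,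
    ⟨⟨(0, []), le_refl (0 : ℤ)⟩⟩, ⟨(0, [])⟩, fg 0,
    fun _ => ⟨fun a => ⟨_, elem 0 a⟩, fun b => into 0 b⟩, not_fg⟩

end Pool.Agent.Results.MP_74a3dd_lc.Counter
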